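import Mathlib
import Pool.Agent.helper87_dom.Tourn

/-!
# Rebels of arbitrarily large chromatic number

`TT_k` is the transitive tournament with `k` vertices, `Δ(A, B, C)` consists of disjoint copies of
`A`, `B`, `C` with all arcs from `A` to `B`, from `B` to `C` and from `C` to `A`, and `S_1` is a
point, `S_(t+1) = Δ(S_t, S_t, S_1)` (in the Lean, `S t` is `S_(t+1)`). Let `F` be the least class of
tournaments which contains all `S_t` and is closed under subtournaments and under the join `A ⇒ B`
(disjoint copies of `A` and `B` with all arcs from `A` to `B`). Then `Δ(A, B, TT_k)` and all its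
subtournaments are rebels, for all `A`, `B` in `F` and all `k`. In particular `S_(t+1)` is a rebel;
its vertex set is not a union of `t` transitive sets. The tournament `T_*` with seven vertices is
`S_3`.

That `Δ(S_m, S_n, TT_k)` is a rebel is proved in the starting library
(`Pool/Agent/helper87_dom/Tourn.lean`, `rebel_SST`); it was not handed in (the hand-in of the
starting files on this page is the closure of the rebels under `H ↦ Δ(H, TT_j, TT_k)`, which does
not raise a chromatic number above two). The closure under joins is proved here: if, in tournaments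
of large domination number, there are sets `Y` and `Z` of bounded size, with all arcs from `Z` to `Y`,
such that every partition of `Y` has `H` in the first or `B` in the second part, and every partition
of `Z` has `H` in the first or `A` in the second part, then `Y ∪ Z` has `H` in the first or `A ⇒ B` in
the second part.
-/

set_option autoImplicit false

namespace Pool.Agent.Results.MP_ead61c_co.RebelsOfLargeChromaticNumber

open Pool.Agent.helper87_dom

/-- The vertex set of `T` is the union of `k` transitive sets. -/
def Colourable (T : Tournament) (k : ℕ) : Prop :=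
  ∃ c : T.V → Fin k, ∀ u v w : T.V, c u = c v → c v = c w → T.adj u v → T.adj v w → T.adj u w

theorem colours (N : ℕ) : ∀ (t : ℕ) (c : (S t).V → Fin N),
    (∀ u v w : (S t).V, c u = c v → c v = c w → (S t).adj u v → (S t).adj v w → (S t).adj u w) →
    t + 1 ≤ (Finset.univ.image c).card
  | 0, c, _ => by
    have hne : (Finset.univ.image c).Nonempty := ⟨c (0 : Fin 1), Finset.mem_image_of_mem c
      (Finset.mem_univ _)⟩
    exact hne.card_pos
  | t + 1, c, hc => by
    have hA := colours N t (fun a => c (Sum.inl (Sum.inl a)))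
      (fun u v w h1 h2 h3 h4 => hc (Sum.inl (Sum.inl u)) (Sum.inl (Sum.inl v))
        (Sum.inl (Sum.inl w)) h1 h2 h3 h4)
    have hB := colours N t (fun b => c (Sum.inl (Sum.inr b)))
      (fun u v w h1 h2 h3 h4 => hc (Sum.inl (Sum.inr u)) (Sum.inl (Sum.inr v))
        (Sum.inl (Sum.inr w)) h1 h2 h3 h4)
    obtain ⟨γ, hγ⟩ : ∃ γ, γ = c (Sum.inr (0 : Fin 1)) := ⟨_, rfl⟩
    by_cases h1 : γ ∈ Finset.univ.image fun a : (S t).V => c (Sum.inl (Sum.inl a))
    · by_cases h2 : γ ∈ Finset.univ.image fun b : (S t).V => c (Sum.inl (Sum.inr b))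
      · exfalso
        obtain ⟨a, -, ha⟩ := Finset.mem_image.1 h1
        obtain ⟨b, -, hb⟩ := Finset.mem_image.1 h2
        have h3 := hc (Sum.inl (Sum.inl a)) (Sum.inl (Sum.inr b)) (Sum.inr (0 : Fin 1))
          (ha.trans hb.symm) (hb.trans hγ) trivial trivial
        exact h3
      · have h3 : insert γ (Finset.univ.image fun b : (S t).V => c (Sum.inl (Sum.inr b))) ⊆
            Finset.univ.image c := by
          intro x hx
          rcases Finset.mem_insert.1 hx with rfl | hx
          · rw [hγ]
            exact Finset.mem_image_of_mem c (Finset.mem_univ _)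
          · obtain ⟨b, -, rfl⟩ := Finset.mem_image.1 hx
            exact Finset.mem_image_of_mem c (Finset.mem_univ _)
        have h4 := Finset.card_le_card h3
        rw [Finset.card_insert_of_notMem h2] at h4
        omega
    · have h3 : insert γ (Finset.univ.image fun a : (S t).V => c (Sum.inl (Sum.inl a))) ⊆
          Finset.univ.image c := by
        intro x hx
        rcases Finset.mem_insert.1 hx with rfl | hx
        · rw [hγ]
          exact Finset.mem_image_of_mem c (Finset.mem_univ _)
        · obtain ⟨a, -, rfl⟩ := Finset.mem_image.1 hx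
          exact Finset.mem_image_of_mem c (Finset.mem_univ _)
      have h4 := Finset.card_le_card h3
      rw [Finset.card_insert_of_notMem h1] at h4
      omega

theorem not_colourable (t : ℕ) : ¬ Colourable (S t) t := by
  rintro ⟨c, hc⟩
  have h1 := colours t t c hc
  have h2 := Finset.card_le_univ (Finset.univ.image c)
  rw [Fintype.card_fin] at h2
  omega

/-- The arcs of `Join A B`. -/
def joinAdj (A B : Tournament) : A.V ⊕ B.V → A.V ⊕ B.V → Prop
  | .inl a, .inl a' => A.adj a a'
  | .inl _, .inr _ => True
  | .inr _, .inl _ => False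
  | .inr b, .inr b' => B.adj b b'

/-- `Join A B`: disjoint copies of `A` and `B` with all arcs from `A` to `B`. -/
def Join (A B : Tournament) : Tournament where
  V := A.V ⊕ B.V
  fin := inferInstance
  adj := joinAdj A B
  irrefl := by
    rintro (a | b)
    · exact A.irrefl a
    · exact B.irrefl b
  total := by
    rintro (a | b) (a' | b') h
    · exact A.total a a' (fun e => h (by rw [e]))
    · simp [joinAdj]
    · simp [joinAdj]
    · exact B.total b b' (fun e => h (by rw [e]))

/-- The least class of tournaments which contains all `S t` and is closed under joins and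
subtournaments. -/
inductive Fam : Tournament → Prop
  | base (t : ℕ) : Fam (S t)
  | join {A B : Tournament} : Fam A → Fam B → Fam (Join A B)
  | sub {A B : Tournament} : Fam A → Contains A B → Fam B

section

open Classical

theorem hasArr_symm {H1 H2 : Tournament} (h : HasArr H1 H2) : HasArr H2 H1 := by
  obtain ⟨K, b, h⟩ := h
  refine ⟨K, b, fun G k X hX hD => ?_⟩
  obtain ⟨B, ⟨hB1, hB2⟩, hB3⟩ := h G k X hX hD
  refine ⟨B, ⟨hB1, fun p => ?_⟩, hB3⟩
  rcases hB2 (fun v => ¬ p v) with h1 | h1
  · right
    refine h1.mono ?_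
    intro v hv
    simp only [Finset.mem_filter] at hv ⊢
    exact hv
  · left
    refine h1.mono ?_
    intro v hv
    simp only [Finset.mem_filter, not_not] at hv ⊢
    exact hv

theorem hasArr_join {H A B : Tournament} (hA : HasArr H A) (hB : HasArr H B) :
    HasArr H (Join A B) := by
  obtain ⟨K1, b1, h1⟩ := hA
  obtain ⟨K2, b2, h2⟩ := hB
  refine ⟨K1 + K2 + b2, b2 + b1, fun G k X hX hD => ?_⟩
  have hmono : ∀ L L' : ℕ, L ≤ L' → LargeDom G.adj L' → LargeDom G.adj L :=
    fun L L' hL h' D hDc => h' D (lt_of_lt_of_le hDc hL)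
  obtain ⟨Y, hY, hYX⟩ := h2 G k X hX (hmono _ _ (by omega) hD)
  obtain ⟨Z, hZ, hZX⟩ := h1 G (b2 + k) (Y ∪ X) (by
    have e1 := Finset.card_union_le Y X
    have e2 := hY.1
    omega) (hmono _ _ (by omega) hD)
  refine ⟨Y ∪ Z, ⟨?_, ?_⟩, ?_⟩
  · have e1 := Finset.card_union_le Y Z
    have e2 := hY.1
    have e3 := hZ.1
    omega
  · intro p
    rcases hY.2 p with g1 | g1
    · exact Or.inl (g1.mono (Finset.filter_subset_filter _ Finset.subset_union_left))
    rcases hZ.2 p with g2 | g2
    · exact Or.inl (g2.mono (Finset.filter_subset_filter _ Finset.subset_union_right))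
    right
    obtain ⟨f, f1, f2⟩ := g2
    obtain ⟨g, e1, e2⟩ := g1
    refine ⟨Sum.elim f g, ?_, ?_⟩
    · rintro (a | b)
      · have h3 := Finset.mem_filter.1 (f1 a)
        exact Finset.mem_filter.2 ⟨Finset.mem_union_right _ h3.1, h3.2⟩
      · have h3 := Finset.mem_filter.1 (e1 b)
        exact Finset.mem_filter.2 ⟨Finset.mem_union_left _ h3.1, h3.2⟩
    · rintro (a | b) (a' | b') h
      · exact f2 a a' h
      · exact hZX _ (Finset.mem_filter.1 (f1 a)).1 _
          (Finset.mem_union_left _ (Finset.mem_filter.1 (e1 b')).1)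
      · exact h.elim
      · exact e2 b b' h
  · intro u hu x hx
    rcases Finset.mem_union.1 hu with hu | hu
    · exact hYX u hu x hx
    · exact hZX u hu x (Finset.mem_union_right _ hx)

theorem hasArr_sub {H A B : Tournament} (h : HasArr H A) (hc : Contains A B) : HasArr H B := by
  obtain ⟨K, b, h⟩ := h
  refine ⟨K, b, fun G k X hX hD => ?_⟩
  obtain ⟨Y, ⟨hB1, hB2⟩, hB3⟩ := h G k X hX hD
  refine ⟨Y, ⟨hB1, fun p => ?_⟩, hB3⟩
  rcases hB2 p with h1 | h1
  · exact Or.inl h1
  · obtain ⟨f, f1, f2⟩ := h1
    obtain ⟨g, g1, g2⟩ := hc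
    exact Or.inr ⟨fun u => f (g u), fun u => f1 _, fun u v huv => f2 _ _ ((g2 u v).1 huv)⟩

theorem hasArr_fam {H : Tournament} (hH : ∀ t, HasArr H (S t)) {A : Tournament} (hA : Fam A) :
    HasArr H A := by
  induction hA with
  | base t => exact hH t
  | join _ _ ih1 ih2 => exact hasArr_join ih1 ih2
  | sub _ hc ih => exact hasArr_sub ih hc

theorem rebel_fam {A B : Tournament} (hA : Fam A) (hB : Fam B) (k : ℕ) :
    Rebel (Delta A B (TT k)) := by
  have key : ∀ {A B : Tournament}, Fam A → Fam B → HasArr A B := fun {A B} hA hB =>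
    hasArr_fam (fun t => hasArr_symm (hasArr_fam (fun s => hasArr_S t s) hA)) hB
  have hne : ∀ C : Tournament, Nonempty (Join (S 0) C).V := fun C => ⟨Sum.inl (0 : Fin 1)⟩
  have hc : ∀ C : Tournament, Contains (Join (S 0) C) C :=
    fun C => ⟨Sum.inr, Sum.inr_injective, fun _ _ => Iff.rfl⟩
  exact (rebel_of_hasArr (key (.join (.base 0) hA) (.join (.base 0) hB)) k).sub
    ((hc A).delta (hc B) (contains_refl _))

end

theorem rebel_S : ∀ t : ℕ, Rebel (S t)
  | 0 => rebel_point
  | t + 1 => rebel_SST t t 1

/-- (1) All subtournaments of the tournaments `Δ(A, B, TT_k)`, `A` and `B` in the class `Fam`, are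
rebels. (2) `S_(t+1)` is a rebel and is not the union of `t` transitive sets. -/
theorem result :
    (∀ (A B : Tournament) (k : ℕ) (H : Tournament), Fam A → Fam B →
      Contains (Delta A B (TT k)) H → Rebel H) ∧
    ∀ t : ℕ, Rebel (S t) ∧ ¬ Colourable (S t) t :=
  ⟨fun _ _ k _ hA hB h => (rebel_fam hA hB k).sub h, fun t => ⟨rebel_S t, not_colourable t⟩⟩

end Pool.Agent.Results.MP_ead61c_co.RebelsOfLargeChromaticNumber
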